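import Pool.Agent.H83.G.Targets1

/-!
Row PUB of the board g_modules: partition functions are multiples of normalized bumps.
-/

set_option autoImplicit false

namespace Pool.Agent.H91.G

open MeasureTheory Set Pool.Agent.H83.G
open scoped ENNReal NNReal RealInnerProductSpace

theorem pf_PUB : T_PUB := by
  intro m L β hβ
  obtain ⟨hsm, h0, _, _⟩ := hβ
  have hcs : HasCompactSupport β := by
    refine HasCompactSupport.intro (isCompact_closedBall (0 : E m) 1) fun x hx => ?_
    apply h0
    rw [mem_closedBall_zero_iff, not_le] at hx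
    exact hx.le
  have hb : ∀ j : ℕ, ∃ C : ℝ, ∀ x, ‖iteratedFDeriv ℝ j β x‖ ≤ C := by
    intro j
    refine Continuous.bounded_above_of_compact_support ?_ (hcs.iteratedFDeriv j)
    exact hsm.continuous_iteratedFDeriv (by exact_mod_cast le_top)
  choose c hc using hb
  set C : ℝ := 1 + ∑ j ∈ Finset.range (L + 1), |c j| with hC
  have hC1 : 1 ≤ C := by
    have : 0 ≤ ∑ j ∈ Finset.range (L + 1), |c j| := Finset.sum_nonneg fun j _ => abs_nonneg _
    linarith
  have hC0 : 0 < C := by linarith
  refine ⟨C, hC1, ?_, ?_, ?_⟩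
  · exact contDiff_const.mul hsm
  · intro x hx
    change ((C⁻¹ : ℝ) : ℂ) * β x = 0
    rw [h0 x hx, mul_zero]
  · intro j hj x
    have e1 : (fun x => ((C⁻¹ : ℝ) : ℂ) * β x) = fun x => C⁻¹ • β x := by
      funext x
      rw [Complex.real_smul]
    rw [e1]
    have e2 : iteratedFDeriv ℝ j (fun x => C⁻¹ • β x) x = C⁻¹ • iteratedFDeriv ℝ j β x :=
      iteratedFDeriv_const_smul_apply' ((hsm.of_le (by exact_mod_cast le_top)).contDiffAt)
    rw [e2, norm_smul, norm_inv, Real.norm_of_nonneg hC0.le, inv_mul_le_iff₀ hC0, mul_one]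
    have h1 : |c j| ≤ ∑ j ∈ Finset.range (L + 1), |c j| :=
      Finset.single_le_sum (f := fun j => |c j|) (fun j _ => abs_nonneg _)
        (Finset.mem_range.2 (by omega))
    calc ‖iteratedFDeriv ℝ j β x‖ ≤ c j := hc j x
      _ ≤ |c j| := le_abs_self _
      _ ≤ C := by linarith

end Pool.Agent.H91.G
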