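import Pool.Agent.H83.G.Targets2

/-!
Row SSA of the board g_modules: stability of sub-sums, wide planks.
-/

set_option autoImplicit false

namespace Pool.Agent.H91.G

open MeasureTheory Set Pool.Agent.H83.G
open scoped ENNReal NNReal RealInnerProductSpace

variable {m : ℕ}

theorem Lo_sub (η : E m) (s : ℝ) (z z' : Z m) : Lo η s (z - z') = Lo η s z - Lo η s z' := by
  unfold Lo
  refine Prod.ext ?_ (Prod.ext ?_ ?_)
  · simp only [Prod.fst_sub, Prod.snd_sub, inner_sub_left]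
    ring
  · simp only [Prod.fst_sub, Prod.snd_sub]
    rw [← smul_sub]
    congr 1
    rw [mul_sub, sub_smul]
    abel
  · simp only [Prod.snd_sub]
    ring

theorem TC_int (G : Z m → ℂ) (h : TC G) (z : Z m) : Integrable (fun ζ => e (ph z ζ) * G ζ) := by
  have hc : Continuous G := h.1.continuous
  have he : Continuous (fun ζ : Z m => e (ph z ζ)) := by
    unfold e ph
    fun_prop
  refine (he.mul hc).integrable_of_hasCompactSupport ?_
  exact h.2.mul_left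

theorem TF_sum {ι : Type} (I : Finset ι) (G : ι → Z m → ℂ) (h : ∀ k ∈ I, TC (G k)) (z : Z m) :
    TF (fun ζ => ∑ k ∈ I, G k ζ) z = ∑ k ∈ I, TF (G k) z := by
  unfold TF
  rw [← integral_finsetSum I fun k hk => TC_int (G k) (h k hk) z]
  refine integral_congr_ae (Filter.Eventually.of_forall fun ζ => ?_)
  simp only
  rw [Finset.mul_sum]

theorem pf_SSA (hLO : T_LO) (hWM : T_WM) (hAVG : T_AVG) (hCLR : T_CLR) (hPUS : T_PUS)
    (hCPS : T_CPS) (hSCH : T_SCH) : T_SSA := by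
  intro m L β δ D hβ hδ hD hL
  obtain ⟨_, _, Cp, hCp0, _, hcount, _⟩ := hPUS m
  set D' : ℝ := 2 * D + 2 with hD'
  set N₀ : ℕ := ⌈Cp * (1 + 2 * D') ^ m⌉₊ with hN₀
  obtain ⟨C1, hC1⟩ := hLO m (m + 3) N₀ D' le_rfl (by rw [hD']; linarith)
  obtain ⟨C2, hC2⟩ := hWM m (m + 3) L 1 (by omega) zero_le_one
  obtain ⟨C3, hC3⟩ := hAVG m (m + 3) le_rfl
  obtain ⟨C4, hC40, hC4⟩ := hCLR m L β δ (1 + D) hβ hδ (by linarith)
  set Ctot : ℝ := 2 ^ (m + 3) * (C1 : ℝ) * (C2 : ℝ) * D ^ 2 * (C3 : ℝ) * C4 with hCtot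
  have hD0 : 0 < D := by linarith
  have hCtot0 : 0 ≤ Ctot := by rw [hCtot]; positivity
  refine ⟨Ctot + 1, by linarith, ?_⟩
  intro κ R A G G' I hκ0 hκ1 hR hA hCls hSub φ hφ η s r z₀ hs0 hs1 hr hrR hRrs
  obtain ⟨hTCG', hsupp, hdom⟩ := hSub
  have hR0 : 0 < R := by linarith
  have hsqR : 0 < Real.sqrt R := Real.sqrt_pos.2 hR0
  have hr0 : 0 < r := by linarith
  set σ : ℝ := sR R with hσ
  have hσe : σ = (Real.sqrt R)⁻¹ := rfl
  have hσ0 : 0 < σ := by rw [hσe]; positivity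
  have hσs : σ ≤ s := by
    rw [hσe, inv_le_iff_one_le_mul₀ hsqR]
    have h1 : 1 ≤ R * s ^ 2 := hr.trans hrR
    have h2 : R * s ^ 2 = (s * Real.sqrt R) ^ 2 := by
      rw [mul_pow, Real.sq_sqrt hR0.le]; ring
    rw [h2] at h1
    exact (one_le_sq_iff₀ (by positivity)).1 h1
  have hsrσ : s ≤ r * σ := by
    rw [hσe, ← div_eq_mul_inv, le_div_iff₀ hsqR]
    have := (le_div_iff₀ hs0).1 hRrs
    linarith
  have hCls0 := hCls
  obtain ⟨hTCG, hGR, _⟩ := hCls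
  have hG1 : ∀ ζ, G ζ ≠ 0 → 1 / 4 ≤ ζ.1 := by
    intro ζ hζ
    have := (hGR ζ hζ).1
    linarith
  set I' : Finset (Fin m → ℤ) := I.filter (fun k => ‖ctr σ k - η‖ ≤ (1 + D) * s) with hI'
  have hI'I : ∀ k ∈ I', k ∈ I := fun k hk => (Finset.mem_filter.1 hk).1
  have hI'd : ∀ k ∈ I', ‖ctr σ k - η‖ ≤ (1 + D) * s := fun k hk => (Finset.mem_filter.1 hk).2
  set g : (Fin m → ℤ) → Z m → ℂ := fun k ζ => cp φ η s ζ * G' k ζ with hg
  have hTCg : ∀ k ∈ I', TC (g k) := fun k hk =>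
    hCPS m φ η s (G' k) hφ.1 hs0 (hTCG' k (hI'I k hk)) fun ζ hζ => (hsupp k (hI'I k hk) ζ hζ).1
  have hgne : ∀ k ζ, g k ζ ≠ 0 → G' k ζ ≠ 0 ∧ ‖ζ.1⁻¹ • ζ.2.1 - η‖ ≤ s := by
    intro k ζ hζ
    refine ⟨fun h => hζ (by simp only [hg, h, mul_zero]), ?_⟩
    by_contra hcon
    rw [not_le] at hcon
    apply hζ
    have h1 : φ (s⁻¹ • (ζ.1⁻¹ • ζ.2.1 - η)) = 0 := by
      apply hφ.2.1
      rw [norm_smul, norm_inv, Real.norm_of_nonneg hs0.le, ← div_eq_inv_mul, le_div_iff₀ hs0,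
        one_mul]
      exact hcon.le
    simp only [hg, cp, h1, zero_mul]
  -- only the caps near `η` matter
  have hTPsum : ∀ z, TP φ η s (fun ζ => ∑ k ∈ I, G' k ζ) z = ∑ k ∈ I', TF (g k) z := by
    intro z
    rw [← TF_sum I' g hTCg z]
    unfold TP
    congr 1
    funext ζ
    rw [Finset.mul_sum]
    change ∑ k ∈ I, g k ζ = ∑ k ∈ I', g k ζ
    symm
    refine Finset.sum_subset (Finset.filter_subset _ _) fun k hk hk' => ?_
    by_contra hne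
    obtain ⟨h1, h2⟩ := hgne k ζ hne
    apply hk'
    rw [hI', Finset.mem_filter]
    refine ⟨hk, ?_⟩
    have h3 := (hsupp k hk ζ h1).2.2
    calc ‖ctr σ k - η‖ = ‖(ζ.1⁻¹ • ζ.2.1 - η) - (ζ.1⁻¹ • ζ.2.1 - ctr σ k)‖ := by
          congr 1; abel
      _ ≤ ‖ζ.1⁻¹ • ζ.2.1 - η‖ + ‖ζ.1⁻¹ • ζ.2.1 - ctr σ k‖ := norm_sub_le _ _
      _ ≤ s + D * σ := by
          gcongr
      _ ≤ s + D * s := by gcongr
      _ = _ := by ring
  set x : Z m := r⁻¹ • Lo η s z₀ with hx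
  set w : Z m → ℝ≥0∞ := fun z => ENNReal.ofReal (wt (m + 3) (r⁻¹ • Lo η s z - x)) with hw
  -- step 1: insert the weight
  have hw1 : ∀ z ∈ pl η s r z₀, (1 : ℝ≥0∞) ≤ 2 ^ (m + 3) * w z := by
    intro z hz
    have hz' : ‖Lo η s (z - z₀)‖ ≤ r := hz
    have h1 : ‖r⁻¹ • Lo η s z - x‖ ≤ 1 := by
      rw [hx, ← smul_sub, ← Lo_sub, norm_smul, norm_inv, Real.norm_of_nonneg hr0.le,
        inv_mul_le_iff₀ hr0, mul_one]
      exact hz'
    have h2 : (2 : ℝ≥0∞) ^ (m + 3) = ENNReal.ofReal (2 ^ (m + 3)) := by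
      rw [ENNReal.ofReal_pow (by norm_num), ENNReal.ofReal_ofNat]
    rw [hw, h2, ← ENNReal.ofReal_mul (by positivity), ← ENNReal.ofReal_one]
    apply ENNReal.ofReal_le_ofReal
    unfold wt
    rw [← div_eq_mul_inv, one_le_div (by positivity)]
    exact pow_le_pow_left₀ (by positivity) (by linarith) _
  have hplm : MeasurableSet (pl η s r z₀) := by
    have hc : Continuous (fun z : Z m => ‖Lo η s (z - z₀)‖) := by
      unfold Lo
      fun_prop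
    exact (isClosed_le hc continuous_const).measurableSet
  have hplm' : ∀ z₁, MeasurableSet (pl η s r z₁) := by
    intro z₁
    have hc : Continuous (fun z : Z m => ‖Lo η s (z - z₁)‖) := by
      unfold Lo
      fun_prop
    exact (isClosed_le hc continuous_const).measurableSet
  have hstep1 : ∫⁻ z in pl η s r z₀, ‖TP φ η s (fun ζ => ∑ k ∈ I, G' k ζ) z‖ₑ ^ 2 ≤
      2 ^ (m + 3) * ∫⁻ z, ‖∑ k ∈ I', TF (g k) z‖ₑ ^ 2 * w z := by
    calc ∫⁻ z in pl η s r z₀, ‖TP φ η s (fun ζ => ∑ k ∈ I, G' k ζ) z‖ₑ ^ 2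
        ≤ ∫⁻ z in pl η s r z₀, 2 ^ (m + 3) * (‖∑ k ∈ I', TF (g k) z‖ₑ ^ 2 * w z) := by
          refine setLIntegral_mono' hplm fun z hz => ?_
          rw [hTPsum z]
          calc ‖∑ k ∈ I', TF (g k) z‖ₑ ^ 2 = 1 * ‖∑ k ∈ I', TF (g k) z‖ₑ ^ 2 := (one_mul _).symm
            _ ≤ (2 ^ (m + 3) * w z) * ‖∑ k ∈ I', TF (g k) z‖ₑ ^ 2 := by
                gcongr
                exact hw1 z hz
            _ = _ := by ring
      _ ≤ ∫⁻ z, 2 ^ (m + 3) * (‖∑ k ∈ I', TF (g k) z‖ₑ ^ 2 * w z) :=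
          setLIntegral_le_lintegral _ _
      _ = _ := lintegral_const_mul' _ _ (by finiteness)
  -- step 2: local orthogonality
  have hstep2 : ∫⁻ z, ‖∑ k ∈ I', TF (g k) z‖ₑ ^ 2 * w z ≤
      C1 * ∑ k ∈ I', ∫⁻ z, ‖TF (g k) z‖ₑ ^ 2 * w z := by
    refine hC1 (Fin m → ℤ) I' g (fun k => ctr σ k) σ s r η x hσ0 hs0 hr ?_ ?_ hTCg ?_ ?_
    · calc s ≤ r * σ := hsrσ
        _ = 1 * r * σ := by ring
        _ ≤ D' * r * σ := by
            gcongr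
            rw [hD']; linarith
    · intro k hk
      calc ‖ctr σ k - η‖ ≤ (1 + D) * s := hI'd k hk
        _ ≤ (1 + D) * (r * σ) := by gcongr
        _ ≤ (2 * D + 2) * (r * σ) :=
            mul_le_mul_of_nonneg_right (by linarith) (by positivity)
        _ = D' * r * σ := by rw [hD']; ring
    · intro k hk ζ hζ
      obtain ⟨h1, _⟩ := hgne k ζ hζ
      obtain ⟨h2, h3, h4⟩ := hsupp k (hI'I k hk) ζ h1
      refine ⟨h2, h3, h4.trans ?_⟩
      have : D ≤ D' := by rw [hD']; linarith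
      gcongr
    · intro y J _ hJ
      have h1 := hcount σ (2 * D' * σ) y J hσ0 (by rw [hD']; positivity) (by
        intro k hk
        rw [norm_sub_rev]
        exact hJ k hk)
      rw [mul_div_assoc, div_self hσ0.ne', mul_one] at h1
      have h2 : (J.card : ℝ) ≤ N₀ := h1.trans (by rw [hN₀]; exact Nat.le_ceil _)
      exact_mod_cast h2
  -- step 3: cap multipliers and domination
  have hstep3 : ∀ k ∈ I', ∫⁻ z, ‖TF (g k) z‖ₑ ^ 2 * w z ≤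
      C2 * (ENNReal.ofReal (D ^ 2) * ∫⁻ z, ‖TP β (ctr σ k) σ G z‖ₑ ^ 2 * w z) := by
    intro k hk
    have h1 : ∫⁻ z, ‖TF (g k) z‖ₑ ^ 2 * w z ≤ C2 * ∫⁻ z, ‖TF (G' k) z‖ₑ ^ 2 * w z := by
      refine hC2 φ hφ η η s s r x (G' k) hs0 hs0 hr ?_ ?_ (hTCG' k (hI'I k hk)) ?_
      · rw [one_mul]
        nlinarith
      · rw [sub_self, norm_zero]
        positivity
      · intro ζ hζ
        exact ⟨(hsupp k (hI'I k hk) ζ hζ).1, (hsupp k (hI'I k hk) ζ hζ).2.1⟩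
    refine h1.trans ?_
    refine mul_le_mul' le_rfl ?_
    rw [← lintegral_const_mul' _ _ ENNReal.ofReal_ne_top]
    refine lintegral_mono fun z => ?_
    have h2 : ‖TF (G' k) z‖ₑ ≤ ENNReal.ofReal D * ‖TP β (ctr σ k) σ G z‖ₑ := by
      rw [← ofReal_norm, ← ofReal_norm, ← ENNReal.ofReal_mul hD0.le]
      exact ENNReal.ofReal_le_ofReal (hdom k (hI'I k hk) z)
    calc ‖TF (G' k) z‖ₑ ^ 2 * w z ≤ (ENNReal.ofReal D * ‖TP β (ctr σ k) σ G z‖ₑ) ^ 2 * w z := by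
          gcongr
      _ = ENNReal.ofReal (D ^ 2) * (‖TP β (ctr σ k) σ G z‖ₑ ^ 2 * w z) := by
          rw [mul_pow, ENNReal.ofReal_pow hD0.le]
          ring
  -- step 4: averaging
  have hTPm : ∀ k, Measurable (fun z => ‖TP β (ctr σ k) σ G z‖ₑ ^ 2) := by
    intro k
    have h1 : TC (fun ζ => cp β (ctr σ k) σ ζ * G ζ) :=
      hCPS m β (ctr σ k) σ G hβ.1 hσ0 hTCG hG1
    have h2 : Continuous (TF (fun ζ => cp β (ctr σ k) σ ζ * G ζ)) := (hSCH m _ h1).1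
    exact h2.measurable.enorm.pow_const 2
  have hwm : Measurable w := by
    rw [hw]
    unfold wt Lo
    fun_prop
  set S : ℝ≥0∞ := ENNReal.ofReal (C4 * R ^ δ * (A ^ 2 * (R * s ^ 2 / r) ^ m * (r / s) ^ (m + 2)))
    with hS
  have hstep4 : ∑ k ∈ I', ∫⁻ z, ‖TP β (ctr σ k) σ G z‖ₑ ^ 2 * w z ≤ C3 * S := by
    have hm : ∀ k, Measurable (fun z => ‖TP β (ctr σ k) σ G z‖ₑ ^ 2 * w z) :=
      fun k => (hTPm k).mul hwm
    rw [← lintegral_finsetSum I' fun k _ => hm k]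
    have h1 : ∀ z, ∑ k ∈ I', ‖TP β (ctr σ k) σ G z‖ₑ ^ 2 * w z =
        (∑ k ∈ I', ‖TP β (ctr σ k) σ G z‖ₑ ^ 2) *
          ENNReal.ofReal (wt (m + 3) ((1 : ℝ) • r⁻¹ • Lo η s z - x)) := by
      intro z
      rw [Finset.sum_mul, one_smul]
    rw [lintegral_congr h1]
    have h2 := hC3 (fun z => ∑ k ∈ I', ‖TP β (ctr σ k) σ G z‖ₑ ^ 2) η s r 1 x S
      (Finset.measurable_sum I' fun k _ => hTPm k) hs0 hr0 one_pos le_rfl (by
        intro z₁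
        rw [lintegral_finsetSum I' fun k _ => hTPm k]
        exact hC4 κ R A G σ s r η z₁ I' hκ0 hκ1 hR hA hCls0 le_rfl hσs hs0 hs1 hr hrR hsrσ hI'd)
    refine h2.trans (le_of_eq ?_)
    simp
  -- conclusion
  calc ∫⁻ z in pl η s r z₀, ‖TP φ η s (fun ζ => ∑ k ∈ I, G' k ζ) z‖ₑ ^ 2
      ≤ 2 ^ (m + 3) * ∫⁻ z, ‖∑ k ∈ I', TF (g k) z‖ₑ ^ 2 * w z := hstep1
    _ ≤ 2 ^ (m + 3) * (C1 * ∑ k ∈ I', ∫⁻ z, ‖TF (g k) z‖ₑ ^ 2 * w z) := by gcongr
    _ ≤ 2 ^ (m + 3) * (C1 * ∑ k ∈ I', C2 * (ENNReal.ofReal (D ^ 2) *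
          ∫⁻ z, ‖TP β (ctr σ k) σ G z‖ₑ ^ 2 * w z)) := by
        refine mul_le_mul' le_rfl (mul_le_mul' le_rfl (Finset.sum_le_sum hstep3))
    _ = 2 ^ (m + 3) * (C1 * (C2 * (ENNReal.ofReal (D ^ 2) *
          ∑ k ∈ I', ∫⁻ z, ‖TP β (ctr σ k) σ G z‖ₑ ^ 2 * w z))) := by
        rw [← Finset.mul_sum, ← Finset.mul_sum]
    _ ≤ 2 ^ (m + 3) * (C1 * (C2 * (ENNReal.ofReal (D ^ 2) * (C3 * S)))) := by gcongr
    _ = ENNReal.ofReal (Ctot * R ^ δ * (A ^ 2 * (R * s ^ 2 / r) ^ m * (r / s) ^ (m + 2))) := by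
        have h2 : (2 : ℝ≥0∞) ^ (m + 3) = ENNReal.ofReal (2 ^ (m + 3)) := by
          rw [ENNReal.ofReal_pow (by norm_num), ENNReal.ofReal_ofNat]
        have hc : ∀ c : ℝ≥0, (c : ℝ≥0∞) = ENNReal.ofReal (c : ℝ) := fun c =>
          (ENNReal.ofReal_coe_nnreal).symm
        rw [h2, hc C1, hc C2, hc C3, hS, ← ENNReal.ofReal_mul (by positivity),
          ← ENNReal.ofReal_mul (by positivity), ← ENNReal.ofReal_mul (by positivity),
          ← ENNReal.ofReal_mul (by positivity), ← ENNReal.ofReal_mul (by positivity), hCtot]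
        congr 1
        ring
    _ ≤ ENNReal.ofReal ((Ctot + 1) * R ^ δ *
          (A ^ 2 * (R * s ^ 2 / r) ^ m * (r / s) ^ (m + 2))) := by
        apply ENNReal.ofReal_le_ofReal
        have hRδ : 0 ≤ R ^ δ := Real.rpow_nonneg hR0.le _
        gcongr
        linarith

end Pool.Agent.H91.G
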